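import Pool.Agent.Helper26.OUT.Gu
import Pool.Agent.Helper30.ZN.Rat

/-! SECOND SELECTION, part 1: digits of a point and of its normalised point over a label with a frame. Over the label the
cell of level `b ≤ La_z` of the point is known to the other coordinates (`z` the last coordinate); number of cells of the
other coordinates; the normalised point is known to the point. -/

set_option autoImplicit false

namespace Pool.Agent.Helper25.MXD

open Finset Filter Topology MvPolynomial Pool.Agent.Helper69.RK Pool.Agent.Helper31.EC Pool.Agent.Helper31.EC.Sp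
open Pool.Agent.Helper40.EL Pool.Agent.Helper89.LX Pool.Agent.Helper3.LF Pool.Agent.Helper84.MT Pool.Agent.Helper36.AM
open Pool.Agent.Helper81.MI (eval_sub_le)

noncomputable section

/-! ### triangular charts -/

/-- values of a triangular row -/
theorem tri_row {m κ : ℕ} {P : Fin m → MvPolynomial (Fin m) ℝ} (tri : ∀ j, ∀ i ∈ (P j).vars, i < j)
    (hκ : ∀ j, (P j).totalDegree ≤ κ) {K B L : ℝ} (hK : 0 ≤ K) (hc : ∀ j a, |(P j).coeff a| ≤ K) (hB : 0 ≤ B)
    (hL : L = ((κ : ℝ) + 1) ^ m * K * (κ * (B + 1) ^ κ)) {U U' : Fin m → ℝ} (hU : ∀ i, |U i| ≤ B)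
    (hU' : ∀ i, |U' i| ≤ B) {δ : ℝ} (hδ : 0 ≤ δ) (j : Fin m) (h : ∀ i, i < j → |U i - U' i| ≤ δ) :
    |eval U (P j) - eval U' (P j)| ≤ L * δ := by
  classical
  have e1 : eval U' (P j) = eval (fun i => if i < j then U' i else U i) (P j) := by
    apply eval_congr
    intro i hi
    rw [if_pos (tri j i hi)]
  rw [e1, hL]
  refine eval_sub_le (P j) (hκ j) U (fun i => if i < j then U' i else U i) (B + 1) K δ (by linarith) hK hδ
    (fun i => ?_) (fun i => ?_) (fun i => ?_) (fun s => hc j s)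
  · have := hU i
    linarith
  · by_cases hi : i < j
    · simp only [if_pos hi]
      have := hU' i
      linarith
    · simp only [if_neg hi]
      have := hU i
      linarith
  · by_cases hi : i < j
    · simp only [if_pos hi]
      exact h i hi
    · simp only [if_neg hi]
      rw [sub_self, abs_zero]
      exact hδ

/-- the parameters of a triangular chart from the values -/
theorem tri_U {m κ : ℕ} {P : Fin m → MvPolynomial (Fin m) ℝ} (tri : ∀ j, ∀ i ∈ (P j).vars, i < j)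
    (hκ : ∀ j, (P j).totalDegree ≤ κ) {K B L : ℝ} (hK : 0 ≤ K) (hc : ∀ j a, |(P j).coeff a| ≤ K) (hB : 0 ≤ B)
    (hL : L = ((κ : ℝ) + 1) ^ m * K * (κ * (B + 1) ^ κ)) {U U' : Fin m → ℝ} (hU : ∀ i, |U i| ≤ B)
    (hU' : ∀ i, |U' i| ≤ B) {ε : ℝ} (hε : 0 ≤ ε) {x x' : Fin m → ℝ} (hx : ∀ j, |x j - (eval U (P j) + U j)| ≤ ε)
    (hx' : ∀ j, |x' j - (eval U' (P j) + U' j)| ≤ ε) (n : ℕ) (h : ∀ j : Fin m, (j : ℕ) < n → |x j - x' j| ≤ ε)
    (j : Fin m) (hj : (j : ℕ) < n) : |U j - U' j| ≤ (1 + L) ^ n * (3 * ε) := by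
  have hL0 : 0 ≤ L := by rw [hL]; positivity
  have h1L : 1 ≤ 1 + L := by linarith
  induction n generalizing j with
  | zero => omega
  | succ n ih =>
    have ih' : ∀ i : Fin m, (i : ℕ) < n → |U i - U' i| ≤ (1 + L) ^ n * (3 * ε) := fun i hi =>
      ih (fun j hj => h j (by omega)) i hi
    rcases Nat.lt_or_ge j n with hn | hn
    · refine (ih' j hn).trans (mul_le_mul_of_nonneg_right (pow_le_pow_right₀ h1L (Nat.le_succ n)) (by linarith))
    · have h2 := tri_row tri hκ hK hc hB hL hU hU' (δ := (1 + L) ^ n * (3 * ε)) (by positivity) j (fun i hi => ih' i (by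
        have h3 : (i : ℕ) < j := hi
        omega))
      have h3 := h j hj
      have e1 : U j - U' j = (x j - x' j) - (x j - (eval U (P j) + U j)) + (x' j - (eval U' (P j) + U' j)) -
          (eval U (P j) - eval U' (P j)) := by ring
      have h4 := hx j
      have h5 := hx' j
      rw [abs_le] at h2 h3 h4 h5
      have h6 : 3 * ε ≤ (1 + L) ^ n * (3 * ε) := le_mul_of_one_le_left (by linarith) (one_le_pow₀ h1L)
      have e2 : (1 + L) ^ (n + 1) * (3 * ε) = (1 + L) ^ n * (3 * ε) + L * ((1 + L) ^ n * (3 * ε)) := by ring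
      rw [e1, e2, abs_le]
      constructor <;> linarith [h2.1, h2.2, h3.1, h3.2, h4.1, h4.2, h5.1, h5.2]

/-! ### the point of a zoom -/

variable {S : Sp} {M : ℕ} {E E' : ℕ → ℕ} {ι : Type}

/-- the coordinates of a frame from the point -/
theorem X_lip {Q : S.VV M} {l : Lab S} {La : Fin M → ℝ} (f : Frm Q l La) (h0 : ∀ i, 0 ≤ La i) {κ : ℕ}
    (hκ : ∀ k ω j, (f.P k ω j).totalDegree ≤ κ) {r : ℝ} (hr : r ≤ 1) : ∃ K : ℕ → ℝ, S.Sub K ∧
      ∀ᶠ k in UF, ∀ ω ω' : (l k).T.Ω, (l k).T.μ ω ≠ 0 → (l k).T.μ ω' ≠ 0 → (l k).T.Z ω ω' → (l k).V ω ω' →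
        (∀ i, |Q.v k ((l k).p.π ω) i - Q.v k ((l k).p.π ω') i| ≤ S.dl r k) →
          ∀ j, |f.X.v k ω j - f.X.v k ω' j| ≤ K k * S.dl (r - La j) k := by
  obtain ⟨Kc, hKc, hc⟩ := f.bd
  obtain ⟨Kp, hKp, hp⟩ := f.pt
  obtain ⟨Kx, hKx', hx⟩ := f.X.bd
  have hKx : S.Sub Kx := (sp_Sub l).mp hKx'
  obtain ⟨L, hL⟩ : ∃ L : ℕ → ℝ, L = fun k => ((κ : ℝ) + 1) ^ M * Kc k * (κ * (Kx k + 1) ^ κ) := ⟨_, rfl⟩
  have hLS : S.Sub L := by rw [hL]; exact Sub_L hKc hKx M κ
  refine ⟨fun k => (1 + L k) ^ M * (3 * (1 + Kp k)), (Sub_pow' ((S.Sub_const zero_le_one).add hLS) M).mul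
    ((S.Sub_const (by norm_num)).mul ((S.Sub_const zero_le_one).add hKp)), ?_⟩
  filter_upwards [hc, hp, hx, hKc.1, hKp.1, hKx.1, f.fn] with k c1 c2 c3 c4 c5 c6 c7
  intro ω ω' hω hω' hZ hV hq j
  have hdi : ∀ i, S.dl (La i) k ≤ 1 := fun i => by
    rw [← S.dl_zero k]
    exact S.dl_anti (h0 i) k
  have hP : f.P k ω = f.P k ω' := c7 ω ω' hω hω' hZ hV
  have hUB : ∀ ω : (l k).T.Ω, (l k).T.μ ω ≠ 0 → ∀ i, |S.dl (La i) k * f.X.v k ω i| ≤ Kx k := by
    intro ω hω i
    rw [abs_mul, abs_of_pos (S.dl_pos _ _)]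
    exact (mul_le_mul (hdi i) (c3 ω hω i) (abs_nonneg _) zero_le_one).trans (one_mul _).le
  have hdr := S.dl_pos r k
  have h1r : S.dl 1 k ≤ S.dl r k := S.dl_anti hr k
  have hε : 0 ≤ (1 + Kp k) * S.dl r k := by positivity
  have herr : ∀ x : ℝ, x ≤ Kp k * S.dl 1 k → x ≤ (1 + Kp k) * S.dl r k := by
    intro x h
    have h2 := mul_le_mul_of_nonneg_left h1r c5
    rw [add_mul, one_mul]
    linarith
  have h1 := tri_U (f.tri k ω) (fun j => hκ k ω j) c4 (fun j a => c1 ω hω j a) c6 (L := L k) (by rw [hL])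
    (U := fun i => S.dl (La i) k * f.X.v k ω i) (U' := fun i => S.dl (La i) k * f.X.v k ω' i)
    (hUB ω hω) (hUB ω' hω') hε (x := Q.v k ((l k).p.π ω)) (x' := Q.v k ((l k).p.π ω'))
    (fun j => herr _ (c2 ω hω j)) (fun j => by
      rw [hP]
      exact herr _ (c2 ω' hω' j)) M (fun i _ => by
      refine (hq i).trans ?_
      rw [add_mul, one_mul]
      have := mul_nonneg c5 hdr.le
      linarith) j j.2
  have hLj := S.dl_pos (La j) k
  have e1 : S.dl (La j) k * f.X.v k ω j - S.dl (La j) k * f.X.v k ω' j =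
      S.dl (La j) k * (f.X.v k ω j - f.X.v k ω' j) := by ring
  have e2 : S.dl r k = S.dl (La j) k * S.dl (r - La j) k := by
    rw [← dl_add]
    congr 1
    ring
  rw [e1, abs_mul, abs_of_pos hLj, e2] at h1
  have h2 : S.dl (La j) k * |f.X.v k ω j - f.X.v k ω' j| ≤
      S.dl (La j) k * ((1 + L k) ^ M * (3 * (1 + Kp k)) * S.dl (r - La j) k) := by
    refine h1.trans (le_of_eq ?_)
    ring
  exact le_of_mul_le_mul_left h2 hLj

/-- THE POINT OF A ZOOM IS KNOWN TO THE POINT, at all levels -/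
theorem t_le {s : MSys S M E ι} {l : Lab S} {La : Fin M → ℝ} {f : Frm s.Q l La} {c e : ℝ} {he : 0 < e}
    {t : MSys (l.ovr e he) M E' ι} (hG : Gz s l c e he f.X t) (h0 : ∀ i, 0 ≤ La i) {κ : ℕ}
    (hκ : ∀ k ω j, (f.P k ω j).totalDegree ≤ κ) {a b : ℝ} (hLa : ∀ j, La j ≤ a) (hb : b ≤ 1) (hab : a + e * b ≤ 1) :
    t.Q.dg b ≤ l.upL e he (s.Q.dg (a + e * b)) := by
  obtain ⟨K1, hK1, h1⟩ := hG.pt
  obtain ⟨K2, hK2, h2⟩ := X_lip f h0 hκ hab
  have e1 : l.upL e he (s.Q.dg (a + e * b)) = ((l.pj.vv s.Q).chg l.V e he).dg ((a + e * b) / e) := by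
    rw [VV.chg_dg, mul_div_cancel₀ _ he.ne']
    show Sp.chgL l.V e he (l.pj.map (s.Q.dg (a + e * b))) = _
    rw [l.pj.map_dg]
  rw [e1]
  apply VV.dg_le_dg (S := l.ovr e he) _ _ _ _ (fun _ _ => True) Typ_true (fun k => K1 k + K2 k + K1 k)
    ((Pool.Agent.Helper26.OUT.ovr_Sub l e he).mp ((hK1.add hK2).add hK1))
  filter_upwards [h1, h2, hK1.1, hK2.1] with k a1 a2 hK0 hK20
  intro (ω : (l k).T.Ω) (ω' : (l k).T.Ω) aa bb _ _ z r j
  obtain ⟨z1, z2⟩ := Pool.Agent.Helper26.OUT.ovr_Z l e he k ω ω' z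
  have hd : ∀ r, (l.ovr e he).dl r k = S.dl (e * r) k := fun r => Pool.Agent.Helper26.OUT.ovr_dl l e he r k
  rw [hd]
  have b1 := a1 ω aa j
  have b2 := a1 ω' bb j
  have b3 := a2 ω ω' aa bb z2 z1 (fun i => by
    have h3 : |s.Q.v k ((l k).p.π ω) i - s.Q.v k ((l k).p.π ω') i| ≤ (l.ovr e he).dl ((a + e * b) / e) k := r i
    rw [hd, mul_div_cancel₀ _ he.ne'] at h3
    exact h3) j
  have h4 : S.dl e k ≤ S.dl (e * b) k := S.dl_anti (by nlinarith) k
  have h5 := mul_le_mul_of_nonneg_left h4 hK0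
  have h6 := mul_le_mul_of_nonneg_left (S.dl_anti (show e * b ≤ a + e * b - La j by linarith [hLa j]) k) hK20
  have e2 : t.Q.v k ω j - t.Q.v k ω' j = (t.Q.v k ω j - f.X.v k ω j) + (f.X.v k ω j - f.X.v k ω' j) -
      (t.Q.v k ω' j - f.X.v k ω' j) := by ring
  rw [e2, add_mul, add_mul]
  refine (abs_sub _ _).trans ?_
  have := abs_add_le (t.Q.v k ω j - f.X.v k ω j) (f.X.v k ω j - f.X.v k ω' j)
  linarith

/-- entropies over a label in other units -/
theorem H_up1_upL (l : Lab S) (e : ℝ) (he : 0 < e) (x : S.L) : H (up1 l x) = e * H (l.upL e he x) := by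
  rw [l.H_upL e he]
  have h1 := l.H_upL 1 one_pos x
  rw [div_one] at h1
  show H (l.upL 1 one_pos x) = _
  rw [h1, mul_div_cancel₀ _ he.ne']

/-- the entropy of the point of the zoom in terms of the coordinates of the frame -/
theorem H_t {s : MSys S M E ι} {l : Lab S} {La : Fin M → ℝ} {f : Frm s.Q l La} {c e : ℝ} {he : 0 < e}
    {t : MSys (l.ovr e he) M E' ι} (hG : Gz s l c e he f.X t) {b : ℝ} (hb : b ≤ 1) :
    e * H (t.Q.dg b) = Sp.hZ l.V (f.X.dg (e * b)) := by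
  have h1 : t.Q.dg b = (f.X.chg l.V e he).dg b := by
    obtain ⟨K1, hK1, h1⟩ := hG.pt
    have hK : (l.ovr e he).Sub (fun k => 1 + (K1 k + K1 k)) :=
      (Pool.Agent.Helper26.OUT.ovr_Sub l e he).mp ((S.Sub_const zero_le_one).add (hK1.add hK1))
    have hd : ∀ r k, (l.ovr e he).dl r k = S.dl (e * r) k := fun r k => Pool.Agent.Helper26.OUT.ovr_dl l e he r k
    apply le_antisymm
    · apply VV.dg_le_dg (S := l.ovr e he) _ _ _ _ (fun _ _ => True) Typ_true _ hK
      filter_upwards [h1, hK1.1] with k a1 hK0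
      intro (ω : (l k).T.Ω) (ω' : (l k).T.Ω) a b' _ _ z r j
      have r' : |f.X.v k ω j - f.X.v k ω' j| ≤ (l.ovr e he).dl b k := r j
      rw [hd] at r' ⊢
      have h4 : S.dl e k ≤ S.dl (e * b) k := S.dl_anti (by nlinarith) k
      have h5 := mul_le_mul_of_nonneg_left h4 hK0
      have b1 := abs_le.mp (a1 ω a j)
      have b2 := abs_le.mp (a1 ω' b' j)
      have b3 := abs_le.mp r'
      rw [abs_le, add_mul, add_mul, one_mul]
      constructor <;> linarith [b1.1, b1.2, b2.1, b2.2, b3.1, b3.2]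
    · apply VV.dg_le_dg (S := l.ovr e he) _ _ _ _ (fun _ _ => True) Typ_true _ hK
      filter_upwards [h1, hK1.1] with k a1 hK0
      intro (ω : (l k).T.Ω) (ω' : (l k).T.Ω) a b' _ _ z r j
      have r' : |t.Q.v k ω j - t.Q.v k ω' j| ≤ (l.ovr e he).dl b k := r j
      show |f.X.v k ω j - f.X.v k ω' j| ≤ _
      rw [hd] at r' ⊢
      have h4 : S.dl e k ≤ S.dl (e * b) k := S.dl_anti (by nlinarith) k
      have h5 := mul_le_mul_of_nonneg_left h4 hK0
      have b1 := abs_le.mp (a1 ω a j)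
      have b2 := abs_le.mp (a1 ω' b' j)
      have b3 := abs_le.mp r'
      rw [abs_le, add_mul, add_mul, one_mul]
      constructor <;> linarith [b1.1, b1.2, b2.1, b2.2, b3.1, b3.2]
  have h2 : H (t.Q.dg b) = Sp.hZ l.V (f.X.dg (e * b)) / e := by
    rw [h1, VV.chg_dg]
    exact H_chgL l.V e he (f.X.dg (e * b))
  rw [h2, mul_div_cancel₀ _ he.ne']

/-- the digits of a truncation -/
theorem H_trn_dg (Q : S.VV M) {e : ℝ} (he : 0 < e) (b : ℝ) : e * H ((Q.chg S.tr e he).dg b) = H (Q.dg (e * b)) := by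
  rw [VV.chg_dg, H_chgL, mul_div_cancel₀ _ he.ne']
  obtain ⟨A, hA⟩ : ∃ A : S.Inf, Q.dg (e * b) = cl A := ⟨(Q.bdd (e * b)).toInf, io_eq _⟩
  rw [hA, hZ_cl, H_cl]

/-! ### the coordinates other than the last -/

/-- the coordinates other than the last -/
def prl (Q : S.VV (M + 1)) : S.VV M where
  v := fun k ω i => Q.v k ω i.castSucc
  bd := by
    obtain ⟨K, hK, h⟩ := Q.bd
    exact ⟨K, hK, h.mono fun k a ω hω i => a ω hω i.castSucc⟩

theorem prl_dg (Q : S.VV (M + 1)) (a : ℝ) : (prl Q).dg a = (ozr Q (Fin.last M)).dg a := by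
  apply le_antisymm
  · apply VV.dg_le_dg _ _ _ _ (fun _ _ => True) Typ_true (fun _ => 1) (S.Sub_const zero_le_one)
    refine Eventually.of_forall fun k ω ω' _ _ _ _ _ h i => ?_
    have h1 := h i.castSucc
    rw [ozr_v, ozr_v, if_neg (Fin.castSucc_lt_last i).ne, if_neg (Fin.castSucc_lt_last i).ne] at h1
    rw [one_mul]
    exact h1
  · apply VV.dg_le_dg _ _ _ _ (fun _ _ => True) Typ_true (fun _ => 1) (S.Sub_const zero_le_one)
    refine Eventually.of_forall fun k ω ω' _ _ _ _ _ h i => ?_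
    rw [ozr_v, ozr_v, one_mul]
    by_cases hi : i = Fin.last M
    · rw [if_pos hi, if_pos hi, sub_self, abs_zero]
      exact (S.dl_pos a k).le
    · rw [if_neg hi, if_neg hi]
      have h1 := h (i.castPred hi)
      have e1 : (i.castPred hi).castSucc = i := Fin.castSucc_castPred i hi
      show |Q.v k ω i - Q.v k ω' i| ≤ _
      rw [← e1]
      exact h1

/-- new digits of the other coordinates -/
theorem h_ozr (Q : S.VV (M + 1)) {r s : ℝ} (hrs : r ≤ s) :
    h ((ozr Q (Fin.last M)).dg s) ((ozr Q (Fin.last M)).dg r) ≤ M * (s - r) := by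
  rw [← prl_dg, ← prl_dg]
  exact (prl Q).h_dg_dg hrs

theorem H_ozr (Q : S.VV (M + 1)) {r : ℝ} (hr : 0 ≤ r) : H ((ozr Q (Fin.last M)).dg r) ≤ M * r := by
  rw [← prl_dg]
  exact (prl Q).H_dg_le hr

/-! ### entropies over labels -/

/-- over finer labels -/
theorem h_kap_le [Countable ι] {s : MSys S M E ι} {c c' : ℝ} (hc : c ≤ c') {l L : Lab S} (hl : s.DMc c l)
    (hL : s.IsKap c' L) (X Y : S.L) : h (up1 L X) (up1 L Y) ≤ h (up1 l X) (up1 l Y) := by
  have h1 : s.DMc c' l := hl.mono hc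
  obtain ⟨y, hy⟩ := Lab.exists_maxf (fun i => l.up 1 one_pos (s.cnd c' i)) (i₀ := none) (by
    have e1 : l.up 1 one_pos (s.cnd c' none) = rpI (l.upI 1 one_pos (s.Q.bdd 1).toInf) := rfl
    rw [e1]
    exact rpI_Bd _)
  have h2 : s.IsKap c' (l.comp 1 one_pos y) := Lab.IsMaxf.comp_max (i := none) h1 hy (pcd_Bd s.Q)
  rw [hL.h_eq h2, l.hr_comp, one_mul]
  exact h_up1_le y _ _

/-- a label without information -/
theorem H_up1_nul (l : Lab S) (hl : Nul S (fun k => (l k).info)) (x : S.L) : H (up1 l x) = H x := by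
  have h1 : Nul S (fun k => (l k).leak (rp (⊥ : S.L) k)) := by
    refine hl.of_le (Eventually.of_forall fun k => (l k).leak_nonneg _) (Eventually.of_forall fun k => ?_)
    rw [← (l k).leak_bot]
    exact (l k).leak_anti bot_le
  have h2 := Lab.h_upL_of_leak (l := l) 1 one_pos (A := ⊥) (x := x) (y := ⊥) h1 le_rfl
  rw [div_one, l.upL_bot, h_bot, h_bot] at h2
  exact h2

end

end Pool.Agent.Helper25.MXD
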