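import Pool.Agent.Helper49.MD.Lim
import Pool.Agent.Helper84.MT.Evt

/-! SECOND SELECTION, part 2: the entropy rate of the point as a functional of the finite data; events; slow diagonals;
the minimum in a class closed under diagonals is attained, the minimisers are closed under diagonals and under events. -/

set_option autoImplicit false

namespace Pool.Agent.Helper25.MXD

open Finset Filter Topology Pool.Agent.Helper69.RK Pool.Agent.Helper31.EC Pool.Agent.Helper31.EC.Sp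
open Pool.Agent.Helper40.EL Pool.Agent.Helper84.MT Pool.Agent.Helper49.MD

noncomputable section

/-- the entropy of the point -/
def gQ (M : ℕ) (ι : Type) : ∀ F : FSp, (KM M ι).X F → ℝ := fun F x => H (FMs.cnd F x 1 none) / F.n

variable {S T : Sp} {M : ℕ} {E : ℕ → ℕ} {ι : Type}

theorem gQ_eq (s : MSys S M E ι) : (fun k => gQ M ι (S.F k) (ob s k)) =
    fun k => H (rpI (s.Q.bdd 1).toInf k) / (S.F k).n := rfl

theorem gQ_UB (s : MSys S M E ι) : UB (fun k => gQ M ι (S.F k) (ob s k)) := by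
  rw [gQ_eq]
  exact rpI_Bd _

theorem gQ_ob (s : MSys S M E ι) : ul (fun k => gQ M ι (S.F k) (ob s k)) = H (s.Q.dg 1) := by
  have h1 : s.Q.dg 1 = cl (s.Q.bdd 1).toInf := io_eq _
  rw [gQ_eq, h1, H_cl]
  congr 1
  funext k
  exact H_rpI _ k

/-! ### events -/

theorem H_im_split {F T : FSp} (p : FPj T F) (A : T.Ω → Prop) (X : FL F) :
    T.pb A * H (FSp.imap p A X) + (1 - T.pb A) * H (FSp.imap p (fun ω => ¬ A ω) X) ≤ H X := by
  have h1 := (T.h_rsplit A (p.map X) ⊥).1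
  have key : ∀ A : T.Ω → Prop, h (T.rmap A (p.map X)) (T.rmap A ⊥) = H (FSp.imap p A X) := by
    intro A
    rw [← FSp.imp_imap, T.rmap_bot, h_bot, (FSp.imp p A).H_map]
  rw [key, key, h_bot, p.H_map] at h1
  exact h1

theorem gQ_im (s : MSys S M E ι) (p : Pj T S) (A : ∀ k, (T.F k).Ω → Prop) (hA : 0 < ul (T.pr A)) (k : ℕ) :
    gQ M ι ((Sp.im p A).F k) (ob (s.im p A hA) k) =
      H (FSp.imap (p.fp k) (A k) (rpI (s.Q.bdd 1).toInf k)) / (S.F k).n := rfl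

/-- the entropy on an event -/
theorem H_im_le (s : MSys S M E ι) (p : Pj T S) (A : ∀ k, (T.F k).Ω → Prop) (hA : 0 < ul (T.pr A)) :
    ul (T.pr A) * H ((s.im p A hA).Q.dg 1) ≤ H (s.Q.dg 1) := by
  rw [← gQ_ob s, ← gQ_ob (s.im p A hA)]
  have t1 := (ul_tendsto (Sp.UB_pr A)).mul (ul_tendsto (gQ_UB (s.im p A hA)))
  refine le_of_tendsto_of_tendsto t1 (ul_tendsto (gQ_UB s)) (Eventually.of_forall fun k => ?_)
  have h1 := H_im_split (p.fp k) (A k) (rpI (s.Q.bdd 1).toInf k)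
  have h2 : 0 ≤ (1 - (T.F k).pb (A k)) * H (FSp.imap (p.fp k) (fun ω => ¬ A k ω) (rpI (s.Q.bdd 1).toInf k)) :=
    mul_nonneg (sub_nonneg.mpr ((T.F k).pb_le_one _)) (H_nonneg _)
  show (T.F k).pb (A k) * (H (FSp.imap (p.fp k) (A k) (rpI (s.Q.bdd 1).toInf k)) / (S.F k).n) ≤
    H (rpI (s.Q.bdd 1).toInf k) / (S.F k).n
  rw [← mul_div_assoc]
  exact div_le_div_of_nonneg_right (by linarith) (S.F k).pos.le

/-- the entropy on an event and on the complement -/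
theorem H_im_add_le (s : MSys S M E ι) (p : Pj T S) (A : ∀ k, (T.F k).Ω → Prop) (hA : 0 < ul (T.pr A))
    (hA' : 0 < ul (T.pr fun k ω => ¬ A k ω)) :
    ul (T.pr A) * H ((s.im p A hA).Q.dg 1) + (1 - ul (T.pr A)) * H ((s.im p (fun k ω => ¬ A k ω) hA').Q.dg 1) ≤
      H (s.Q.dg 1) := by
  rw [← gQ_ob s, ← gQ_ob (s.im p A hA), ← gQ_ob (s.im p (fun k ω => ¬ A k ω) hA')]
  have t1 := ((ul_tendsto (Sp.UB_pr A)).mul (ul_tendsto (gQ_UB (s.im p A hA)))).add
    (((ul_tendsto (Sp.UB_pr A)).const_sub 1).mul (ul_tendsto (gQ_UB (s.im p (fun k ω => ¬ A k ω) hA'))))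
  refine le_of_tendsto_of_tendsto t1 (ul_tendsto (gQ_UB s)) (Eventually.of_forall fun k => ?_)
  have h1 := H_im_split (p.fp k) (A k) (rpI (s.Q.bdd 1).toInf k)
  show (T.F k).pb (A k) * (H (FSp.imap (p.fp k) (A k) (rpI (s.Q.bdd 1).toInf k)) / (S.F k).n) +
    (1 - (T.F k).pb (A k)) * (H (FSp.imap (p.fp k) (fun ω => ¬ A k ω) (rpI (s.Q.bdd 1).toInf k)) / (S.F k).n) ≤
    H (rpI (s.Q.bdd 1).toInf k) / (S.F k).n
  rw [← mul_div_assoc, ← mul_div_assoc, ← add_div]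
  exact div_le_div_of_nonneg_right h1 (S.F k).pos.le

/-! ### classes -/

variable {C : ∀ S : Sp, MSys S M E ι → Prop}

/-- THE MINIMUM IS ATTAINED -/
theorem exists_min (hC : DiagCl (lft C)) (hne : ∃ S s, C S s) :
    ∃ hs : ℝ, (∀ S s, C S s → hs ≤ H (s.Q.dg 1)) ∧ ∃ (S : Sp) (s : MSys S M E ι), C S s ∧ H (s.Q.dg 1) = hs := by
  obtain ⟨V, hV⟩ : ∃ V : Set ℝ, V = {r | ∃ (S : Sp) (s : MSys S M E ι), C S s ∧ r = H (s.Q.dg 1)} := ⟨_, rfl⟩
  have hVb : BddBelow V := ⟨0, by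
    rw [hV]
    rintro r ⟨S, s, _, rfl⟩
    exact H_nonneg _⟩
  have hVn : V.Nonempty := by
    obtain ⟨S, s, hs⟩ := hne
    rw [hV]
    exact ⟨_, S, s, hs, rfl⟩
  have hmem : ∀ (S : Sp) (s : MSys S M E ι), C S s → H (s.Q.dg 1) ∈ V := by
    intro S s hs
    rw [hV]
    exact ⟨S, s, hs, rfl⟩
  have h2 : ∀ j : ℕ, ∃ (S : Sp) (s : MSys S M E ι), C S s ∧ H (s.Q.dg 1) < sInf V + 1 / ((j : ℝ) + 1) := by
    intro j
    have h3 : (0 : ℝ) < 1 / ((j : ℝ) + 1) := by positivity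
    obtain ⟨r, hr, hr'⟩ := exists_lt_of_csInf_lt hVn (lt_add_of_pos_right (sInf V) h3)
    rw [hV] at hr
    obtain ⟨S, s, hs, rfl⟩ := hr
    exact ⟨S, s, hs, hr'⟩
  choose S s hs hr using h2
  obtain ⟨R, hR, h3⟩ := hC S (fun j => ob (s j)) fun j => lft_ob (hs j)
  obtain ⟨J, hJ⟩ := exists_slo S (fun i j k => R i j k ∧ valE (gQ M ι) S (fun j => ob (s j)) j k)
    fun i j => (hR i j).and (valE_ev (gQ M ι) S (fun j => ob (s j)) j (gQ_UB (s j)))
  obtain ⟨t, ht, hCt⟩ := h3 J hJ.left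
  have hlim : Tendsto (fun j => ul (fun k' => gQ M ι ((S j).F k') (ob (s j) k'))) atTop (𝓝 (sInf V)) := by
    have h6 : Tendsto (fun j : ℕ => sInf V + 1 / ((j : ℝ) + 1)) atTop (𝓝 (sInf V)) := by
      have := (tendsto_one_div_add_atTop_nhds_zero_nat (𝕜 := ℝ)).const_add (sInf V)
      rwa [add_zero] at this
    refine tendsto_of_tendsto_of_tendsto_of_le_of_le tendsto_const_nhds h6 (fun j => ?_) (fun j => ?_)
    · show sInf V ≤ ul (fun k' => gQ M ι ((S j).F k') (ob (s j) k'))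
      rw [gQ_ob]
      exact csInf_le hVb (hmem _ _ (hs j))
    · show ul (fun k' => gQ M ι ((S j).F k') (ob (s j) k')) ≤ _
      rw [gQ_ob]
      exact (hr j).le
  have h4 := val_of (K := KM M ι) (g := gQ M ι) (x := fun j => ob (s j)) hJ.tend (hJ.right.slow 0) hlim
  refine ⟨sInf V, fun S s hs => csInf_le hVb (hmem S s hs), _, t, hCt, ?_⟩
  rw [← gQ_ob t]
  apply ul_eq
  refine h4.congr' ?_
  filter_upwards [ht] with k hk
  rw [hk]
  rfl

/-- DIAGONALS OF MEMBERS OF CONSTANT ENTROPY -/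
theorem dg_min (hC : DiagCl (lft C)) (hs : ℝ) : DiagCl (lft fun S (s : MSys S M E ι) => C S s ∧ H (s.Q.dg 1) = hs) := by
  intro S x hx
  obtain ⟨R, hR, h3⟩ := hC S x fun j => (hx j).imp fun _ h => ⟨h.1, h.2.1⟩
  have hv : ∀ j, UB (fun k => gQ M ι ((S j).F k) (x j k)) ∧ ul (fun k => gQ M ι ((S j).F k) (x j k)) = hs := by
    intro j
    obtain ⟨s, h1, h2, h4⟩ := hx j
    have e : (fun k => gQ M ι ((S j).F k) (ob s k)) =ᶠ[UF] fun k => gQ M ι ((S j).F k) (x j k) := by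
      filter_upwards [h1] with k hk
      rw [hk]
    constructor
    · have h5 := (ul_tendsto (gQ_UB s)).congr' e
      exact UB_of_tendsto h5
    · rw [← h4, ← gQ_ob s]
      exact (ul_congr e).symm
  refine ⟨fun i j k => R i j k ∧ valE (gQ M ι) S x j k, fun i j => (hR i j).and (valE_ev (gQ M ι) S x j (hv j).1),
    fun J hJ => ?_⟩
  obtain ⟨t, ht, hCt⟩ := h3 J hJ.left
  refine ⟨t, ht, hCt, ?_⟩
  have h4 := val_of (K := KM M ι) (g := gQ M ι) (x := x) hJ.tend (hJ.right.slow 0) (v := hs) (by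
    have e : (fun j => ul (fun k' => gQ M ι ((S j).F k') (x j k'))) = fun _ => hs := funext fun j => (hv j).2
    rw [e]
    exact tendsto_const_nhds)
  rw [← gQ_ob t]
  apply ul_eq
  refine h4.congr' ?_
  filter_upwards [ht] with k hk
  rw [hk]
  rfl

/-- EVENTS OF MINIMISERS -/
theorem im_min (him : ∀ S s, C S s → ∀ (T : Sp) (p : Pj T S) (A : ∀ k, (T.F k).Ω → Prop) (hA : 0 < ul (T.pr A)),
    C (Sp.im p A) (s.im p A hA)) {hs : ℝ} (hmin : ∀ S s, C S s → hs ≤ H (s.Q.dg 1)) {S : Sp} {s : MSys S M E ι}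
    (h : C S s) (he : H (s.Q.dg 1) = hs) {T : Sp} (p : Pj T S) (A : ∀ k, (T.F k).Ω → Prop) (hA : 0 < ul (T.pr A)) :
    H ((s.im p A hA).Q.dg 1) = hs := by
  apply le_antisymm _ (hmin _ _ (him S s h T p A hA))
  rcases typ_or A with ht | hA'
  · have h1 := H_im_le s p A hA
    have h2 : ul (T.pr A) = 1 := ul_eq ((Typ_iff A).mp ht)
    rw [h2, one_mul, he] at h1
    exact h1
  · have h1 := H_im_add_le s p A hA hA'
    have h2 := hmin _ _ (him S s h T p _ hA')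
    have h3 : ul (T.pr A) ≤ 1 := ul_pr_le_one A
    rw [he] at h1
    have h4 := mul_le_mul_of_nonneg_left h2 (sub_nonneg.mpr h3)
    have h5 : ul (T.pr A) * H ((s.im p A hA).Q.dg 1) ≤ ul (T.pr A) * hs := by linarith
    exact le_of_mul_le_mul_left h5 hA

end

end Pool.Agent.Helper25.MXD
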