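import Pool.Agent.Helper25.MXD.Max

/-! SECOND SELECTION, part 5: the members of minimal entropy are a homogeneous class. -/

set_option autoImplicit false

namespace Pool.Agent.Helper25.MXD

open Finset Filter Topology Pool.Agent.Helper69.RK Pool.Agent.Helper31.EC Pool.Agent.Helper31.EC.Sp
open Pool.Agent.Helper40.EL Pool.Agent.Helper89.LX Pool.Agent.Helper3.LF Pool.Agent.Helper84.MT Pool.Agent.Helper36.AM
open Pool.Agent.Helper49.MD (lft DiagCl)

noncomputable section

variable {M : ℕ} {Cl : MCl (M + 1)} {g r : ℕ} {w : Fin (M + 1) → ℝ}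
  {CC : ∀ S : Sp, MSys S (M + 1) (lin g) (Fin r) → Prop}

/-- the members of entropy `hs` -/
def Mn (CC : ∀ S : Sp, MSys S (M + 1) (lin g) (Fin r) → Prop) (hs : ℝ) :
    ∀ S : Sp, MSys S (M + 1) (lin g) (Fin r) → Prop := fun S s => CC S s ∧ H (s.Q.dg 1) = hs

/-- THE SECOND SELECTION -/
theorem hom_of_pre (P : Pre M Cl g r w CC) : ∃ (ρ : ℝ) (TT : ∀ S : Sp, MSys S (M + 1) (lin g) (Fin r) → Prop),
    Hom M Cl g r w ρ TT := by
  obtain ⟨hs, hmin, S0, s0, h0, he0⟩ := exists_min (C := CC) P.dg (P.dfc.imp fun _ h => h.imp fun _ h => h.1)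
  have hM := P.full0 h0
  have h1 : (M : ℝ) ≤ hs := by
    rw [← he0]
    exact hM.trans (H_mono (ozr_dg_le _ _ _))
  refine ⟨(M : ℝ) + 1 - hs, Mn CC hs, ?_⟩
  exact
  { cl := fun S s h => P.cl S s h.1
    ne := ⟨S0, s0, h0, he0⟩
    im := fun S s h T p A hA => ⟨P.im S s h.1 T p A hA, im_min P.im hmin h.1 h.2 p A hA⟩
    dg := dg_min P.dg hs
    con := fun S s h => P.con_min hmin h.1 h.2
    hull := fun S s h => P.hull S s h.1
    mono := P.mono
    one := P.one
    rho := by
      obtain ⟨S, s, h, h2⟩ := P.dfc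
      have := hmin S s h
      linarith
    rho1 := by linarith
    trn := fun S s h e he h2 => ⟨P.trn S s h.1 e he h2, P.trn_min hmin h.1 h.2 he h2⟩
    wd := fun S s h => P.wd S s h.1
    box := fun S s h => P.box S s h.1
    zoom := fun S s h c hc hwc l f hl e he hce => by
      obtain ⟨t, hG, ht⟩ := P.zoom S s h.1 c hc hwc l f hl e he hce
      exact ⟨t, hG, ht, P.zoom_min hmin h.1 h.2 hc hwc f hl he hce hG.toGz⟩
    num := fun S s h c b a hc hwc hcb hba ha l hl => by
      rw [Pool.Agent.Helper84.MT.num_iff, P.num_min hmin h.1 h.2 hc hwc hcb hba ha hl]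
      congr 2
      ring }

end

end Pool.Agent.Helper25.MXD
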