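import Pool.Agent.Helper25.MXD.Pre
import Pool.Agent.Helper25.MXD.Ent

/-! SECOND SELECTION, part 4: members of minimal entropy. -/

set_option autoImplicit false

namespace Pool.Agent.Helper25.MXD

open Finset Filter Topology Pool.Agent.Helper69.RK Pool.Agent.Helper31.EC Pool.Agent.Helper31.EC.Sp
open Pool.Agent.Helper40.EL Pool.Agent.Helper89.LX Pool.Agent.Helper3.LF Pool.Agent.Helper84.MT Pool.Agent.Helper36.AM
open Pool.Agent.Helper49.MD (lft DiagCl)

noncomputable section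

namespace Pre

variable {M : ℕ} {Cl : MCl (M + 1)} {g r : ℕ} {w : Fin (M + 1) → ℝ}
  {CC : ∀ S : Sp, MSys S (M + 1) (lin g) (Fin r) → Prop} (P : Pre M Cl g r w CC) {hs : ℝ}
  (hmin : ∀ S s, CC S s → hs ≤ H (s.Q.dg 1)) {S : Sp} {s : MSys S (M + 1) (lin g) (Fin r)}

include P hmin

/-- the numbers `H(Q_a)`, `H(Q_1 | kappa_c)` of a member of minimal entropy, `a = w_z c` -/
theorem e12 (hC : CC S s) (he : H (s.Q.dg 1) = hs) {c : ℝ} (hc : 0 < c) (hwc : w (Fin.last M) * c < 1) {l : Lab S}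
    (hl : s.IsKap c l) : H (s.Q.dg (w (Fin.last M) * c)) = hs * (w (Fin.last M) * c) ∧
      H (up1 l (s.Q.dg 1)) = ∑ j : Fin M, (1 - w j.castSucc * c) + (hs - M) * (1 - w (Fin.last M) * c) := by
  obtain ⟨a, ha⟩ : ∃ a, a = w (Fin.last M) * c := ⟨_, rfl⟩
  have wz := P.wz_pos
  have ha0 : 0 < a := by rw [ha]; positivity
  obtain ⟨l0, f, hl0⟩ := P.box S s hC c hc hwc
  rw [hl.H_eq hl0, ← ha]
  rw [← ha] at hwc
  have a1 := P.n1 hmin hC ha0.le hwc.le
  have a2 := P.n6 hmin hC hc (ha ▸ hwc) hl0 (b := 1) (ha ▸ hwc.le) le_rfl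
  rw [cel2L_self, ← ha] at a2
  have a3 := P.n4 hC (c := 0) ha0 hwc (by rw [mul_zero]; exact ha0.le) (l := fun k => FLab.triv (S.F k)) (Lab.DMf_triv _)
  have a3' := a3.trans (h_up1_le _ _ _)
  have a4 := P.box_le (s := s) hc (b := a) (a := 1) ha.ge hwc.le le_rfl f
  rw [← ha, sub_self, add_zero] at a4
  -- the chain
  obtain ⟨X, hX⟩ : ∃ X, X = cel2L s.Q (Fin.last M) 1 a := ⟨_, rfl⟩
  rw [← hX] at a4
  have hX1 : X ≤ s.Q.dg 1 := by
    rw [hX, ← cel2L_self s.Q (Fin.last M) 1]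
    exact cel2L_mono _ _ le_rfl hwc.le
  have c1 : H X = H (s.Q.dg a) + h ((ozr s.Q (Fin.last M)).dg 1) (s.Q.dg a) := by
    have h1 : h ((ozr s.Q (Fin.last M)).dg 1) (s.Q.dg a) = H ((ozr s.Q (Fin.last M)).dg 1 ⊔ s.Q.dg a) -
      H (s.Q.dg a) := rfl
    rw [h1, sup_comm, hX]
    unfold cel2L
    ring
  have c2 : h (s.Q.dg 1) X = H (s.Q.dg 1) - H X := by
    have h1 : h (s.Q.dg 1) X = H (s.Q.dg 1 ⊔ X) - H X := rfl
    rw [h1, sup_eq_left.mpr hX1]
  have c3 : h (up1 l0 (s.Q.dg 1)) (up1 l0 X) = H (up1 l0 (s.Q.dg 1)) - H (up1 l0 X) := by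
    have h1 : h (up1 l0 (s.Q.dg 1)) (up1 l0 X) = H (up1 l0 (s.Q.dg 1) ⊔ up1 l0 X) - H (up1 l0 X) := rfl
    rw [h1, sup_eq_left.mpr (up1_mono l0 hX1)]
  have c4 := h_up1_le l0 (s.Q.dg 1) X
  rw [c2, c3, he] at c4
  constructor
  · apply le_antisymm _ a1
    linarith
  · apply le_antisymm _ a2
    linarith

/-- the cells of the point of a member of minimal entropy -/
theorem e1 (hC : CC S s) (he : H (s.Q.dg 1) = hs) {a : ℝ} (h0 : 0 ≤ a) (h1 : a ≤ 1) : H (s.Q.dg a) = hs * a := by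
  rcases h0.eq_or_lt with h | h0
  · rw [← h, mul_zero, s.Q.dg_nonpos le_rfl]
    exact H_bot
  rcases h1.eq_or_lt with h | h1
  · rw [h, mul_one, he]
  have wz := P.wz_pos
  have e1 : w (Fin.last M) * (a / w (Fin.last M)) = a := mul_div_cancel₀ _ wz.ne'
  have h2 := (P.e12 hmin hC he (c := a / w (Fin.last M)) (by positivity) (e1.le.trans_lt h1)
    (s.kap_isKap _)).1
  rw [e1] at h2
  exact h2

/-- truncations -/
theorem trn_min (hC : CC S s) (he : H (s.Q.dg 1) = hs) {e : ℝ} (h0 : 0 < e) (h1 : e ≤ 1) :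
    H ((s.trn e h0 h1).Q.dg 1) = hs := by
  have h2 := H_trn_dg s.Q h0 1
  rw [mul_one, P.e1 hmin hC he h0.le h1, mul_comm hs] at h2
  exact mul_left_cancel₀ h0.ne' h2

/-- zooms -/
theorem zoom_min (hC : CC S s) (he : H (s.Q.dg 1) = hs) {c : ℝ} (hc : 0 < c) (hwc : w (Fin.last M) * c < 1)
    {l : Lab S} (f : Frm s.Q l (fun j => w j * c)) (hl : s.IsKap c l) {e : ℝ} (he0 : 0 < e)
    (hce : w (Fin.last M) * c + e ≤ 1) {t : MSys (l.ovr e he0) (M + 1) (lin g) (Fin r)}
    (hG : Gz s l c e he0 f.X t) : H (t.Q.dg 1) = hs := by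
  obtain ⟨e1, he1⟩ : ∃ e1, e1 = 1 - w (Fin.last M) * c := ⟨_, rfl⟩
  have h1 : 0 < e1 := by linarith
  have h2 : e ≤ e1 := by linarith
  obtain ⟨t1, hG1, ht1⟩ := P.zoom S s hC c hc hwc l f hl e1 h1 (by linarith)
  -- the longest zoom
  have key : H (t1.Q.dg 1) = hs := by
    apply le_antisymm _ (hmin _ _ ht1)
    refine le_of_forall_pos_le_add fun ε hε => ?_
    obtain ⟨δ, hδ⟩ : ∃ δ, δ = min (1 / 2) ε := ⟨_, rfl⟩
    have d1 : 0 < δ := by
      rw [hδ]
      exact lt_min (by norm_num) hε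
    have d2 : δ < 1 := by
      rw [hδ]
      exact (min_le_left _ _).trans_lt (by norm_num)
    have d3 : δ ≤ ε := by
      rw [hδ]
      exact min_le_right _ _
    have a1 := P.n5 (hs := hs) hC hc f hl (by linarith) hG1.toGz ht1 (b := 1 - δ) (by linarith) (by linarith)
    have a2 : H (up1 l (cel2L s.Q (Fin.last M) 1 (w (Fin.last M) * c + e1 * (1 - δ)))) ≤
        H (up1 l (s.Q.dg 1)) := by
      apply H_mono (up1_mono _ _)
      rw [← cel2L_self s.Q (Fin.last M) 1]
      exact cel2L_mono _ _ le_rfl (by nlinarith)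
    have a3 := (P.e12 hmin hC he hc hwc hl).2
    have e2 : ∑ j : Fin M, (1 - w j.castSucc * c - e1 * (1 - δ)) =
        ∑ j : Fin M, (1 - w j.castSucc * c) - M * (e1 * (1 - δ)) := by
      rw [Finset.sum_sub_distrib, Finset.sum_const, Finset.card_univ, Fintype.card_fin, nsmul_eq_mul]
    rw [e2] at a1
    have a4 : e1 * H (t1.Q.dg (1 - δ)) ≤ e1 * (hs - M * δ) := by
      rw [← he1] at a3
      linarith
    have a5 := le_of_mul_le_mul_left a4 h1
    have a6 := t1.Q.h_dg_dg (show 1 - δ ≤ 1 by linarith)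
    have a7 : h (t1.Q.dg 1) (t1.Q.dg (1 - δ)) = H (t1.Q.dg 1) - H (t1.Q.dg (1 - δ)) := by
      have a8 : h (t1.Q.dg 1) (t1.Q.dg (1 - δ)) = H (t1.Q.dg 1 ⊔ t1.Q.dg (1 - δ)) - H (t1.Q.dg (1 - δ)) := rfl
      rw [a8, sup_eq_left.mpr (t1.Q.dg_mono (by linarith))]
    rw [a7] at a6
    push_cast at a6
    linarith
  -- the shorter zoom
  have b1 := H_t hG (b := 1) le_rfl
  have b2 := H_t hG1.toGz (b := e / e1) (by rw [div_le_one h1]; exact h2)
  have b3 := P.e1 hmin ht1 key (a := e / e1) (by positivity) (by rw [div_le_one h1]; exact h2)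
  rw [mul_div_cancel₀ _ h1.ne'] at b2
  rw [mul_one] at b1
  rw [b3, ← b1] at b2
  have e3 : e1 * (hs * (e / e1)) = e * hs := by
    field_simp
  rw [e3] at b2
  exact (mul_left_cancel₀ he0.ne' b2).symm

omit hmin in
/-- the other coordinates are full -/
theorem full0 (hC : CC S s) : (M : ℝ) ≤ H ((ozr s.Q (Fin.last M)).dg 1) := by
  have h1 := P.full S s hC 0 le_rfl (by rw [mul_zero]; exact zero_lt_one) (s.kap 0) (s.kap_isKap 0)
  have e1 : ∑ j : Fin M, (1 - w j.castSucc * 0) = (M : ℝ) := by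
    have e2 : ∀ j : Fin M, 1 - w j.castSucc * 0 = 1 := fun j => by ring
    rw [Finset.sum_congr rfl fun j _ => e2 j, Finset.sum_const, Finset.card_univ, Fintype.card_fin, nsmul_eq_mul,
      mul_one]
  rw [e1] at h1
  exact h1.trans (H_up1_le _ _)

/-- labels of the window `0` of a member of minimal entropy have no information -/
theorem con_min (hC : CC S s) (he : H (s.Q.dg 1) = hs) : s.Con 0 := by
  intro l hl
  obtain ⟨T, t, ht, h1⟩ := P.bas S s hC l hl
  have h2 := (hmin T t ht).trans h1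
  rw [← he] at h2
  have hn : Nul S (fun k => (l k).leak (pcd s.Q k)) := hl none
  have hn2 : Nul S (fun k => (l k).leak (rp (s.Q.dg 1) k)) :=
    (hn.add (pcd_rp s.Q).2).of_le (Eventually.of_forall fun _ => FLab.leak_nonneg _ _)
      (Eventually.of_forall fun k => (l k).leak_le_leak (rp (s.Q.dg 1) k) (pcd s.Q k))
  have h3 := Lab.info_eq_of_leak (c := 1) (hc := one_pos) hn2
  have h4 : l.info ≤ 0 := by
    rw [h3, one_mul]
    have h5 : H (up1 l (s.Q.dg 1)) = H (l.upL 1 one_pos (s.Q.dg 1)) := rfl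
    linarith
  have h5 := ul_tendsto (hl.ub (i := none) (pcd_Bd s.Q))
  have h6 : l.info = ul (fun k => (l k).info / (S.F k).n) := rfl
  have h7 : (0 : ℝ) ≤ l.info := const_le_ul (hl.ub (i := none) (pcd_Bd s.Q))
    (Eventually.of_forall fun k => div_nonneg (FLab.info_nonneg _) (S.F k).pos.le)
  rw [← h6, le_antisymm h4 h7] at h5
  exact h5

/-- THE NUMBERS of a member of minimal entropy, open range -/
theorem num_min (hC : CC S s) (he : H (s.Q.dg 1) = hs) {c b a : ℝ} (hc : 0 ≤ c) (hwc : w (Fin.last M) * c < 1)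
    (hcb : w (Fin.last M) * c ≤ b) (hba : b ≤ a) (ha : a ≤ 1) {l : Lab S} (hl : s.IsKap c l) :
    H (up1 l (cel2L s.Q (Fin.last M) a b)) =
      ∑ j : Fin M, (a - w j.castSucc * c) + (hs - M) * (b - w (Fin.last M) * c) := by
  have wz := P.wz_pos
  have hwc0 : 0 ≤ w (Fin.last M) * c := mul_nonneg wz.le hc
  have hb0 : 0 ≤ b := hwc0.trans hcb
  have hb1 : b ≤ 1 := hba.trans ha
  have hcon := P.con_min hmin hC he
  -- total over the label
  have tot : H (up1 l (s.Q.dg 1)) = ∑ j : Fin M, (1 - w j.castSucc * c) + (hs - M) * (1 - w (Fin.last M) * c) := by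
    rcases hc.eq_or_lt with hc | hc
    · have h1 : H (up1 l (s.Q.dg 1)) = H (s.Q.dg 1) := by
        rw [← hc] at hl
        exact H_up1_nul l (hcon l hl.1) _
      rw [h1, he, ← hc]
      have e2 : ∀ j : Fin M, 1 - w j.castSucc * 0 = 1 := fun j => by ring
      rw [Finset.sum_congr rfl fun j _ => e2 j, Finset.sum_const, Finset.card_univ, Fintype.card_fin, nsmul_eq_mul]
      ring
    · exact (P.e12 hmin hC he hc hwc hl).2
  -- lower bound at `a = 1`
  have low : ∑ j : Fin M, (1 - w j.castSucc * c) + (hs - M) * (b - w (Fin.last M) * c) ≤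
      H (up1 l (cel2L s.Q (Fin.last M) 1 b)) := by
    rcases hc.eq_or_lt with hc | hc
    · have h1 : H (up1 l (cel2L s.Q (Fin.last M) 1 b)) = H (cel2L s.Q (Fin.last M) 1 b) := by
        rw [← hc] at hl
        exact H_up1_nul l (hcon l hl.1) _
      rw [h1, ← hc]
      have e2 : ∀ j : Fin M, 1 - w j.castSucc * 0 = 1 := fun j => by ring
      rw [Finset.sum_congr rfl fun j _ => e2 j, Finset.sum_const, Finset.card_univ, Fintype.card_fin, nsmul_eq_mul]
      rcases hb0.eq_or_lt with hb | hb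
      · rw [← hb, mul_zero, sub_zero, mul_zero, add_zero, mul_one]
        exact (P.full0 hC).trans (H_mono le_sup_right)
      rcases hb1.eq_or_lt with hb | hb1
      · rw [hb, cel2L_self, he]
        linarith
      · have a3 := P.n4 hC (c := 0) hb hb1 (by rw [mul_zero]; exact hb.le) (l := fun k => FLab.triv (S.F k))
          (Lab.DMf_triv _)
        have a4 := a3.trans (h_up1_le _ _ _)
        have a5 := P.n1 hmin hC hb.le hb1.le
        have c1 : H (cel2L s.Q (Fin.last M) 1 b) = H (s.Q.dg b) + h ((ozr s.Q (Fin.last M)).dg 1) (s.Q.dg b) := by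
          have h1 : h ((ozr s.Q (Fin.last M)).dg 1) (s.Q.dg b) = H ((ozr s.Q (Fin.last M)).dg 1 ⊔ s.Q.dg b) -
            H (s.Q.dg b) := rfl
          rw [h1, sup_comm]
          unfold cel2L
          ring
        rw [c1]
        linarith
    · exact P.n6 hmin hC hc hwc hl hcb hb1
  have hsum := sum_sub (w := w) (M := M) 1 a c
  apply le_antisymm
  · -- upper bound
    rcases hb1.eq_or_lt with hb | hb1
    · have ha1 : a = 1 := le_antisymm ha (hb ▸ hba)
      rw [ha1, hb, cel2L_self, tot]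
    rcases hb0.eq_or_lt with hb | hb
    · have hwc' : w (Fin.last M) * c = 0 := le_antisymm (hb ▸ hcb) hwc0
      have hc' : c = 0 := by
        rcases mul_eq_zero.mp hwc' with h1 | h1
        · exact absurd h1 wz.ne'
        · exact h1
      rw [← hb, hc', mul_zero, sub_zero, mul_zero, add_zero]
      have e2 : ∀ j : Fin M, a - w j.castSucc * 0 = a := fun j => by ring
      rw [Finset.sum_congr rfl fun j _ => e2 j, Finset.sum_const, Finset.card_univ, Fintype.card_fin, nsmul_eq_mul]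
      refine (H_up1_le _ _).trans ?_
      have h1 : cel2L s.Q (Fin.last M) a 0 = (ozr s.Q (Fin.last M)).dg a := by
        unfold cel2L
        rw [s.Q.dg_nonpos le_rfl, bot_sup_eq]
      rw [h1]
      exact H_ozr s.Q (hb0.trans hba)
    · obtain ⟨c', hc'⟩ : ∃ c', c' = b / w (Fin.last M) := ⟨_, rfl⟩
      have hwc' : w (Fin.last M) * c' = b := by
        rw [hc', mul_div_cancel₀ _ wz.ne']
      have hc0 : 0 < c' := by
        rw [hc']
        positivity
      have hcc : c ≤ c' := by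
        rw [hc', le_div_iff₀ wz, mul_comm]
        exact hcb
      obtain ⟨L, f, hL⟩ := P.box S s hC c' hc0 (hwc'.le.trans_lt hb1)
      have a1 := h_kap_le hcc hl.1 hL (s.Q.dg 1) (cel2L s.Q (Fin.last M) a b)
      have hle : cel2L s.Q (Fin.last M) a b ≤ s.Q.dg 1 := by
        rw [← cel2L_self s.Q (Fin.last M) 1]
        exact cel2L_mono _ _ ha hb1.le
      have key : ∀ l : Lab S, h (up1 l (s.Q.dg 1)) (up1 l (cel2L s.Q (Fin.last M) a b)) =
          H (up1 l (s.Q.dg 1)) - H (up1 l (cel2L s.Q (Fin.last M) a b)) := by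
        intro l
        have h1 : h (up1 l (s.Q.dg 1)) (up1 l (cel2L s.Q (Fin.last M) a b)) =
          H (up1 l (s.Q.dg 1) ⊔ up1 l (cel2L s.Q (Fin.last M) a b)) - H (up1 l (cel2L s.Q (Fin.last M) a b)) := rfl
        rw [h1, sup_eq_left.mpr (up1_mono l hle)]
      rw [key, key, tot, (P.e12 hmin hC he hc0 (hwc'.le.trans_lt hb1) hL).2] at a1
      have a2 := P.box_le (s := s) hc0 (b := b) (a := a) hwc'.le hba ha f
      rw [hwc', sub_self, add_zero] at a2
      rw [hwc'] at a1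
      have hsum' := sum_sub (w := w) (M := M) 1 a c'
      have e3 : (hs - M) * (b - w (Fin.last M) * c) = (hs - M) * (1 - w (Fin.last M) * c) - (hs - M) * (1 - b) := by
        ring
      rw [e3]
      linarith
  · -- lower bound
    obtain ⟨A, hA⟩ : ∃ A, A = up1 l (cel2L s.Q (Fin.last M) a b) := ⟨_, rfl⟩
    obtain ⟨B, hB⟩ : ∃ B, B = up1 l ((ozr s.Q (Fin.last M)).dg 1) := ⟨_, rfl⟩
    have h1 : up1 l (cel2L s.Q (Fin.last M) 1 b) ≤ A ⊔ B := by
      unfold cel2L
      rw [up1_sup, hA, hB]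
      refine sup_le (le_sup_of_le_left (up1_mono _ ?_)) le_sup_right
      exact le_sup_left
    have h2 := H_mono h1
    have h3 : H (A ⊔ B) = H A + h B A := H_chain A B
    have h4 : h B A ≤ h B (up1 l ((ozr s.Q (Fin.last M)).dg a)) := by
      apply h_anti
      rw [hA]
      exact up1_mono _ le_sup_right
    have h5 := h_up1_le l ((ozr s.Q (Fin.last M)).dg 1) ((ozr s.Q (Fin.last M)).dg a)
    have h6 := h_ozr s.Q ha
    rw [← hA]
    rw [← hB] at h5
    linarith

end Pre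

end

end Pool.Agent.Helper25.MXD
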