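import Pool.Agent.Helper25.MXD.Cnt

/-! SECOND SELECTION, part 3: the input (`Pre`) and the lower bounds for the entropies over the boxes of all members. -/

set_option autoImplicit false

namespace Pool.Agent.Helper25.MXD

open Finset Filter Topology Pool.Agent.Helper69.RK Pool.Agent.Helper31.EC Pool.Agent.Helper31.EC.Sp
open Pool.Agent.Helper40.EL Pool.Agent.Helper89.LX Pool.Agent.Helper3.LF Pool.Agent.Helper84.MT Pool.Agent.Helper36.AM
open Pool.Agent.Helper49.MD (lft DiagCl)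
open Pool.Agent.Helper30.ZN (H_frm_le lev lev_self lev_ne le_lev)

noncomputable section

/-- THE INPUT of the second selection: a class of systems with constant weights `w`, exact boxes, in which the coordinates
other than the last fill their box, closed under events, slow diagonals, truncations, zooms; base changes by labels of
the window `0` do not have less entropy; one member is deficient. -/
structure Pre (M : ℕ) (Cl : MCl (M + 1)) (g r : ℕ) (w : Fin (M + 1) → ℝ)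
    (CC : ∀ S : Sp, MSys S (M + 1) (lin g) (Fin r) → Prop) : Prop where
  cl : ∀ S s, CC S s → Cl S g r s
  im : ∀ S s, CC S s → ∀ (T : Sp) (p : Pj T S) (A : ∀ k, (T.F k).Ω → Prop) (hA : 0 < ul (T.pr A)),
    CC (Sp.im p A) (s.im p A hA)
  dg : DiagCl (lft CC)
  hull : ∀ S s, CC S s → volO s 0 = (M : ℝ) + 1
  mono : Monotone w
  one : w 0 = 1
  trn : ∀ S s, CC S s → ∀ (e : ℝ) (he : 0 < e) (h1 : e ≤ 1), CC (S.chg S.tr e he) (s.trn e he h1)
  wd : ∀ S s, CC S s → ∀ i, ∃ G : ∀ k, (S.F k).Ω → Fin (M + 1) → MvPolynomial (Fin (s.lf i).e) ℝ,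
    (∀ᶠ k in UF, ∀ ω, (S.F k).μ ω ≠ 0 → ∀ y j, (s.lf i).F k ω y j = MvPolynomial.eval y (G k ω j)) ∧
      ∀ k ω j, ((G k ω j).totalDegree : ℝ) ≤ w j
  box : ∀ S s, CC S s → ∀ c : ℝ, 0 < c → w (Fin.last M) * c < 1 → ∃ (l : Lab S) (_ : Frm s.Q l (fun j => w j * c)),
    s.IsKap c l
  zoom : ∀ S s, CC S s → ∀ c : ℝ, 0 < c → w (Fin.last M) * c < 1 → ∀ (l : Lab S) (f : Frm s.Q l (fun j => w j * c)),
    s.IsKap c l → ∀ (e : ℝ) (he : 0 < e), w (Fin.last M) * c + e ≤ 1 → ∃ t : MSys (l.ovr e he) (M + 1) (lin g) (Fin r),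
      Gzf s l f c e he t ∧ CC _ t
  /-- base changes at the window 0 -/
  bas : ∀ S s, CC S s → ∀ l : Lab S, s.DMc 0 l → ∃ (T : Sp) (t : MSys T (M + 1) (lin g) (Fin r)), CC T t ∧
    H (t.Q.dg 1) ≤ H (up1 l (s.Q.dg 1))
  /-- the other coordinates fill their box -/
  full : ∀ S s, CC S s → ∀ c : ℝ, 0 ≤ c → w (Fin.last M) * c < 1 → ∀ l : Lab S, s.IsKap c l →
    ∑ j : Fin M, (1 - w j.castSucc * c) ≤ H (up1 l ((ozr s.Q (Fin.last M)).dg 1))
  /-- deficit -/
  dfc : ∃ S s, CC S s ∧ H (s.Q.dg 1) < M + 1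

namespace Pre

variable {M : ℕ} {Cl : MCl (M + 1)} {g r : ℕ} {w : Fin (M + 1) → ℝ}
  {CC : ∀ S : Sp, MSys S (M + 1) (lin g) (Fin r) → Prop} (P : Pre M Cl g r w CC)

include P

theorem one_le (j : Fin (M + 1)) : 1 ≤ w j := by
  rw [← P.one]
  exact P.mono (Fin.zero_le j)

theorem le_last (j : Fin (M + 1)) : w j ≤ w (Fin.last M) := P.mono (Fin.le_last j)

theorem wz_pos : 0 < w (Fin.last M) := zero_lt_one.trans_le (P.one_le _)

/-- over the boxes -/
theorem box_le {S : Sp} {s : MSys S (M + 1) (lin g) (Fin r)} {c b a : ℝ} (h0 : 0 < c) (hb : w (Fin.last M) * c ≤ b)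
    (hba : b ≤ a) (ha : a ≤ 1) {y : Lab S} (f : Frm s.Q y (fun j => w j * c)) :
    H (up1 y (cel2L s.Q (Fin.last M) a b)) ≤ ∑ j : Fin M, (a - w j.castSucc * c) + (b - w (Fin.last M) * c) := by
  have h1 := H_frm_le f (fun j => mul_pos (zero_lt_one.trans_le (P.one_le j)) h0) (z := Fin.last M)
    (fun j => Fin.le_last j) hba ha (fun j => ((mul_le_mul_of_nonneg_right (P.le_last j) h0.le).trans hb).trans
      (le_lev hba j))
  refine h1.trans (le_of_eq ?_)
  rw [Fin.sum_univ_castSucc, lev_self]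
  congr 1
  refine Finset.sum_congr rfl fun j _ => ?_
  rw [lev_ne _ _ (Fin.castSucc_lt_last j).ne]

omit P in
theorem sum_sub (a b c : ℝ) : ∑ j : Fin M, (a - w j.castSucc * c) - ∑ j : Fin M, (b - w j.castSucc * c) =
    M * (a - b) := by
  rw [← Finset.sum_sub_distrib]
  have e1 : ∀ j : Fin M, (a - w j.castSucc * c) - (b - w j.castSucc * c) = a - b := fun j => by ring
  rw [Finset.sum_congr rfl fun j _ => e1 j, Finset.sum_const, Finset.card_univ, Fintype.card_fin, nsmul_eq_mul]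

/-- (N4) new digits of the other coordinates, given the cell of the point, over a label of a smaller window -/
theorem n4 {S : Sp} {s : MSys S (M + 1) (lin g) (Fin r)} (hs : CC S s) {c b : ℝ} (hb : 0 < b) (hb1 : b < 1)
    (hcb : w (Fin.last M) * c ≤ b) {l : Lab S} (hl : s.DMc c l) :
    M * (1 - b) ≤ h (up1 l ((ozr s.Q (Fin.last M)).dg 1)) (up1 l (s.Q.dg b)) := by
  have wz := P.wz_pos
  obtain ⟨c', hc'⟩ : ∃ c', c' = b / w (Fin.last M) := ⟨_, rfl⟩
  have hwc : w (Fin.last M) * c' = b := by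
    rw [hc', mul_div_cancel₀ _ wz.ne']
  have hc0 : 0 < c' := by
    rw [hc']
    positivity
  have hcc : c ≤ c' := by
    rw [hc', le_div_iff₀ wz, mul_comm]
    exact hcb
  obtain ⟨L, f, hL⟩ := P.box S s hs c' hc0 (hwc.le.trans_lt hb1)
  refine le_trans ?_ (h_kap_le hcc hl hL _ _)
  have h1 := P.full S s hs c' hc0.le (hwc.le.trans_lt hb1) L hL
  have h2 := P.box_le (s := s) hc0 hwc.le le_rfl hb1.le f
  rw [cel2L_self, hwc, sub_self, add_zero] at h2
  have h3 : H (up1 L ((ozr s.Q (Fin.last M)).dg 1)) ≤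
      H (up1 L ((ozr s.Q (Fin.last M)).dg 1) ⊔ up1 L (s.Q.dg b)) := H_mono le_sup_left
  have h4 : h (up1 L ((ozr s.Q (Fin.last M)).dg 1)) (up1 L (s.Q.dg b)) =
      H (up1 L ((ozr s.Q (Fin.last M)).dg 1) ⊔ up1 L (s.Q.dg b)) - H (up1 L (s.Q.dg b)) := rfl
  have h5 := sum_sub (w := w) (M := M) 1 b c'
  rw [h4]
  linarith

/-- the entropies of the cells of the point -/
theorem n1 {hs : ℝ} (hmin : ∀ S s, CC S s → hs ≤ H (s.Q.dg 1)) {S : Sp} {s : MSys S (M + 1) (lin g) (Fin r)}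
    (hC : CC S s) {b : ℝ} (h0 : 0 ≤ b) (h1 : b ≤ 1) : hs * b ≤ H (s.Q.dg b) := by
  rcases h0.eq_or_lt with hb | hb
  · rw [← hb, mul_zero]
    exact H_nonneg _
  · have h2 := hmin _ _ (P.trn S s hC b hb h1)
    have h3 := H_trn_dg s.Q hb 1
    rw [mul_one] at h3
    rw [← h3, mul_comm]
    exact mul_le_mul_of_nonneg_left h2 hb.le

/-- (N5) a zoom: the point of the zoom and the other coordinates -/
theorem n5 {hs : ℝ} {S : Sp} {s : MSys S (M + 1) (lin g) (Fin r)}
    (hC : CC S s) {c : ℝ} (hc : 0 < c) {l : Lab S} (f : Frm s.Q l (fun j => w j * c)) (hl : s.IsKap c l)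
    {e : ℝ} {he : 0 < e} (hce : w (Fin.last M) * c + e ≤ 1) {t : MSys (l.ovr e he) (M + 1) (lin g) (Fin r)}
    (hG : Gz s l c e he f.X t) (ht : CC _ t) {b : ℝ} (hb : 0 < b) (hb1 : b < 1) :
    e * H (t.Q.dg b) + ∑ j : Fin M, (1 - w j.castSucc * c - e * b) ≤
      H (up1 l (cel2L s.Q (Fin.last M) 1 (w (Fin.last M) * c + e * b))) := by
  have wz := P.wz_pos
  have h0 : ∀ j, 0 ≤ w j * c := fun j => mul_nonneg (zero_le_one.trans (P.one_le j)) hc.le
  have hκ := fun k ω j => Frm.deg hc P.one_le P.le_last f k ω j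
  obtain ⟨b2, hb2⟩ : ∃ b2, b2 = b / w (Fin.last M) := ⟨_, rfl⟩
  have hwb : w (Fin.last M) * b2 = b := by
    rw [hb2, mul_div_cancel₀ _ wz.ne']
  have hb20 : 0 < b2 := by
    rw [hb2]
    positivity
  have hb21 : b2 ≤ 1 := by
    have h1 := P.one_le (Fin.last M)
    nlinarith
  -- the label of the zoom
  obtain ⟨y, f', hy⟩ := P.box _ t ht b2 hb20 (hwb.le.trans_lt hb1)
  have hL : s.DMc (c + e * b2) (l.comp e he y) := Pool.Agent.Helper26.OUT.DMc_cl (f := f) hG h0 hκ (fun j => by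
    have := mul_le_mul_of_nonneg_right (P.le_last j) hc.le
    linarith) hl.1 hb20.le hb21 hy.1
  have hwc : w (Fin.last M) * (c + e * b2) = w (Fin.last M) * c + e * b := by
    rw [← hwb]
    ring
  have heb : e * b < e := by nlinarith
  have hw1 : w (Fin.last M) * (c + e * b2) < 1 := by
    rw [hwc]
    linarith
  have h1 := P.full S s hC (c + e * b2) (by positivity) hw1 (s.kap (c + e * b2)) (s.kap_isKap _)
  have h2 := MSys.IsKap.H_le (s.kap_isKap (c + e * b2)) hL ((ozr s.Q (Fin.last M)).dg 1)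
  rw [l.H_comp] at h2
  have h3 := P.box_le (s := t) hb20 hwb.le le_rfl hb1.le f'
  rw [cel2L_self, hwb, sub_self, add_zero] at h3
  -- in the lattice of the zoom
  obtain ⟨A, hA⟩ : ∃ A, A = l.upL e he ((ozr s.Q (Fin.last M)).dg 1) := ⟨_, rfl⟩
  obtain ⟨B, hB⟩ : ∃ B, B = t.Q.dg b := ⟨_, rfl⟩
  rw [← hA] at h2
  rw [← hB] at h3 ⊢
  have h4 := h_up1_le y A B
  have h5 : h (up1 y A) (up1 y B) = H (up1 y A ⊔ up1 y B) - H (up1 y B) := rfl
  have h6 : H (up1 y A) ≤ H (up1 y A ⊔ up1 y B) := H_mono le_sup_left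
  have h7 : h A B = H (A ⊔ B) - H B := rfl
  have h8 : A ⊔ B ≤ l.upL e he (cel2L s.Q (Fin.last M) 1 (w (Fin.last M) * c + e * b)) := by
    unfold cel2L
    rw [l.upL_sup, hA, hB]
    exact sup_le le_sup_right ((t_le hG h0 hκ (fun j => mul_le_mul_of_nonneg_right (P.le_last j) hc.le) hb1.le
      (by linarith)).trans le_sup_left)
  have h9 := H_mono h8
  rw [H_up1_upL l e he]
  have e1 : ∑ j : Fin M, (1 - w j.castSucc * (c + e * b2)) - e * ∑ j : Fin M, (b - w j.castSucc * b2) =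
      ∑ j : Fin M, (1 - w j.castSucc * c - e * b) := by
    rw [Finset.mul_sum, ← Finset.sum_sub_distrib]
    exact Finset.sum_congr rfl fun j _ => by ring
  rw [← e1]
  have h10 : e * H (A ⊔ B) ≤ e * H (l.upL e he (cel2L s.Q (Fin.last M) 1 (w (Fin.last M) * c + e * b))) :=
    mul_le_mul_of_nonneg_left h9 he.le
  have h11 : e * H (up1 y B) ≤ e * ∑ j : Fin M, (b - w j.castSucc * b2) := mul_le_mul_of_nonneg_left h3 he.le
  have h12 : e * (H (up1 y A) - H (up1 y B)) ≤ e * (H (A ⊔ B) - H B) :=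
    mul_le_mul_of_nonneg_left (by linarith) he.le
  rw [mul_sub, mul_sub] at h12
  linarith

/-- (N6) LOWER BOUND over the boxes, all members -/
theorem n6 {hs : ℝ} (hmin : ∀ S s, CC S s → hs ≤ H (s.Q.dg 1)) {S : Sp} {s : MSys S (M + 1) (lin g) (Fin r)}
    (hC : CC S s) {c : ℝ} (hc : 0 < c) (hwc : w (Fin.last M) * c < 1) {l : Lab S} (hl : s.IsKap c l) {b : ℝ}
    (hb : w (Fin.last M) * c ≤ b) (hb1 : b ≤ 1) :
    ∑ j : Fin M, (1 - w j.castSucc * c) + (hs - M) * (b - w (Fin.last M) * c) ≤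
      H (up1 l (cel2L s.Q (Fin.last M) 1 b)) := by
  obtain ⟨l0, f, hl0⟩ := P.box S s hC c hc hwc
  rw [hl.H_eq hl0]
  obtain ⟨e, he'⟩ : ∃ e, e = 1 - w (Fin.last M) * c := ⟨_, rfl⟩
  have he : 0 < e := by linarith
  obtain ⟨t, hG, ht⟩ := P.zoom S s hC c hc hwc l0 f hl0 e he (by linarith)
  -- inner levels
  have key : ∀ β, 0 < β → β < 1 → ∑ j : Fin M, (1 - w j.castSucc * c) + (hs - M) * (e * β) ≤
      H (up1 l0 (cel2L s.Q (Fin.last M) 1 (w (Fin.last M) * c + e * β))) := by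
    intro β h1 h2
    have h3 := P.n5 (hs := hs) hC hc f hl0 (by linarith) hG.toGz ht h1 h2
    have h4 := P.n1 hmin ht h1.le h2.le
    have h5 := mul_le_mul_of_nonneg_left h4 he.le
    have e1 : ∑ j : Fin M, (1 - w j.castSucc * c - e * β) = ∑ j : Fin M, (1 - w j.castSucc * c) - M * (e * β) := by
      rw [Finset.sum_sub_distrib, Finset.sum_const, Finset.card_univ, Fintype.card_fin, nsmul_eq_mul]
    rw [e1] at h3
    linarith
  rcases hb.eq_or_lt with hb0 | hb0
  · rw [← hb0, sub_self, mul_zero, add_zero]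
    refine (P.full S s hC c hc.le hwc l0 hl0).trans (H_mono (up1_mono _ ?_))
    exact le_sup_right
  · -- approximation from below
    refine le_of_forall_pos_le_add fun ε hε => ?_
    obtain ⟨D, hD⟩ : ∃ D, D = |hs - M| + 1 := ⟨_, rfl⟩
    have hD0 : 0 < D := by
      rw [hD]
      positivity
    obtain ⟨δ, hδ⟩ : ∃ δ, δ = min ((b - w (Fin.last M) * c) / 2) (ε / D) := ⟨_, rfl⟩
    have d1 : 0 < δ := by
      rw [hδ]
      exact lt_min (by linarith) (by positivity)
    have d2 : δ < b - w (Fin.last M) * c := by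
      rw [hδ]
      exact (min_le_left _ _).trans_lt (by linarith)
    have d3 : D * δ ≤ ε := by
      have h4 : δ ≤ ε / D := by
        rw [hδ]
        exact min_le_right _ _
      rw [le_div_iff₀ hD0] at h4
      linarith
    have h1 := key ((b - w (Fin.last M) * c - δ) / e) (div_pos (by linarith) he) (by
      rw [div_lt_one he]
      linarith)
    rw [mul_div_cancel₀ _ he.ne'] at h1
    have h2 : H (up1 l0 (cel2L s.Q (Fin.last M) 1 (w (Fin.last M) * c + (b - w (Fin.last M) * c - δ)))) ≤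
        H (up1 l0 (cel2L s.Q (Fin.last M) 1 b)) := H_mono (up1_mono _ (cel2L_mono _ _ le_rfl (by linarith)))
    have h3 : (hs - M) * δ ≤ D * δ := by
      apply mul_le_mul_of_nonneg_right _ d1.le
      rw [hD]
      have := le_abs_self (hs - M)
      linarith
    have e1 : (hs - M) * (b - w (Fin.last M) * c - δ) = (hs - M) * (b - w (Fin.last M) * c) - (hs - M) * δ := by ring
    rw [e1] at h1
    linarith

end Pre

end

end Pool.Agent.Helper25.MXD
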